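import Mathlib

set_option autoImplicit false
set_option linter.unusedSectionVars false

namespace Pool.Agent.H46.Tp

open Polynomial

/-- `B ^ N * F (A / B)` -/
noncomputable def pl {R : Type} [CommRing R] (F A B : R[X]) (N : ℕ) : R[X] :=
  MvPolynomial.aeval ![A, B] (F.homogenize N)

lemma pl_map {R S : Type} [CommRing R] [CommRing S] (φ : R →+* S) (F A B : R[X]) (N : ℕ) :
    (pl F A B N).map φ = pl (F.map φ) (A.map φ) (B.map φ) N := by
  rw [pl, pl, homogenize_map]
  induction F.homogenize N using MvPolynomial.induction_on with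
  | C a => simp
  | add p q hp hq => simp [hp, hq]
  | mul_X p i hp => fin_cases i <;> simp [hp]

lemma pl_prod {R : Type} [CommRing R] [Nontrivial R] (s : Multiset R) (A B : R[X]) :
    pl (s.map (X - C ·)).prod A B s.card = (s.map fun r => A - C r * B).prod := by
  induction s using Multiset.induction_on with
  | empty => simp [pl]
  | cons a s ih =>
    rw [Multiset.map_cons, Multiset.prod_cons, Multiset.card_cons, add_comm, pl,
      homogenize_mul _ _ (natDegree_X_sub_C a).le (natDegree_multiset_prod_X_sub_C_eq_card s).le,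
      map_mul, ← pl, ← pl, ih]
    simp [pl, homogenize_sub]

/-- preimages of `{2, -1}` under the iterates of `u ↦ (u ^ 2 - u) / 2` -/
noncomputable def F : ℕ → ℤ[X]
  | 0 => (X - C 2) * (X - C (-1))
  | n + 1 => pl (F n) (X ^ 2 - X) 2 (2 ^ (n + 1))

/-- solutions `x` of `y + 8 / y = 4 u - 2`, `y = x ^ 2 - x`, `F n u = 0` -/
noncomputable def P (n : ℕ) : ℤ[X] :=
  pl (F n) ((X ^ 2 - X) ^ 2 + 2 * (X ^ 2 - X) + 8) (4 * (X ^ 2 - X)) (2 ^ (n + 1))

variable {K : Type} [CommRing K] [Nontrivial K]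

/-- `F n` has roots `s` -/
def Rs (n : ℕ) (s : Multiset K) : Prop :=
  s.card = 2 ^ (n + 1) ∧ (F n).map (Int.castRingHom K) = (s.map (X - C ·)).prod

lemma Rs.zero : Rs 0 ({2, -1} : Multiset K) := ⟨rfl, by simp [F, C_ofNat]⟩

lemma Rs.succ {n : ℕ} {s : Multiset K} (h : Rs n s) {w : K → K} (hw : ∀ r, w r ^ 2 - w r = 2 * r) :
    Rs (n + 1) (s.map w + s.map (1 - w ·)) := ⟨by simp [h.1, pow_succ _ (n + 1), mul_two], by
  rw [F, pl_map, h.2, ← h.1, pl_prod, Multiset.map_add, Multiset.prod_add, Multiset.map_map,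
    Multiset.map_map, ← Multiset.prod_map_mul]
  refine congrArg _ (Multiset.map_congr rfl fun r _ => ?_)
  have := congrArg C (hw r)
  simp only [map_sub, map_pow, map_mul, C_ofNat] at this
  simp
  linear_combination this⟩

lemma Rs.P {n : ℕ} {s : Multiset K} (h : Rs n s) : (P n).map (Int.castRingHom K) =
    (s.map fun r => (X ^ 2 - X) ^ 2 + 2 * (X ^ 2 - X) + 8 - C r * (4 * (X ^ 2 - X))).prod := by
  rw [Tp.P, pl_map, h.2, ← h.1, pl_prod]; simp

lemma hensel {p : ℕ} [Fact p.Prime] {b c : ℤ_[p]} (hb : ‖b‖ = 1) (hc : (p : ℤ_[p]) ∣ c) :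
    ∃ w : ℤ_[p], w ^ 2 - b * w + c = 0 := by
  have := (PadicInt.norm_lt_one_iff_dvd c).mpr hc
  have e : ∀ z, aeval z (X ^ 2 - C b * X + C c : ℤ_[p][X]) = z ^ 2 - b * z + c := fun z => by simp
  have e2 : aeval 0 (X ^ 2 - C b * X + C c : ℤ_[p][X]).derivative = -b := by simp
  obtain ⟨z, h, -⟩ := hensels_lemma (F := (X ^ 2 - C b * X + C c : ℤ_[p][X])) (a := 0) (by
    rw [e, e2, norm_neg, hb, one_pow, mul_zero, sub_zero, sq, zero_mul, zero_add]; exact this)
  exact ⟨z, e z ▸ h⟩

lemma splits2 (n : ℕ) : ((P n).map (Int.castRingHom ℤ_[2])).Splits := by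
  choose w hw using fun r : ℤ_[2] => hensel (b := 1) (c := -(2 * r)) norm_one (by simp)
  replace hw : ∀ r, w r ^ 2 - w r = 2 * r := fun r => by linear_combination hw r
  obtain ⟨s, h⟩ : ∃ s : Multiset ℤ_[2], Rs n s := by
    induction n with
    | zero => exact ⟨_, .zero⟩
    | succ n ih => exact ⟨_, ih.choose_spec.succ hw⟩
  rw [h.P]
  refine .multisetProd fun f hf => ?_
  obtain ⟨r, -, rfl⟩ := Multiset.mem_map.mp hf
  obtain ⟨e, he⟩ := hensel (b := 2 * r - 1) (c := 2) (by
    refine (PadicInt.norm_le_one _).antisymm (not_lt.mp fun c => ?_)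
    have := (dvd_mul_right _ r).sub ((PadicInt.norm_lt_one_iff_dvd _).mp c)
    exact (PadicInt.prime_p (p := 2)).not_dvd_one (by simpa using this)) (by simp)
  refine (congrArg Splits ?_).mp (((Splits.X_sub_C (w e)).mul (.X_sub_C (1 - w e))).mul
    ((Splits.X_sub_C (w (2 * r - 1 - e))).mul (.X_sub_C (1 - w (2 * r - 1 - e)))))
  have a := congrArg C (hw e)
  have b := congrArg C (hw (2 * r - 1 - e))
  have c := congrArg C he
  simp only [map_sub, map_pow, map_mul, map_add, C_ofNat, map_one, map_zero] at a b c ⊢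
  grind

lemma roots_c (n : ℕ) : ∃ s : Multiset ℂ, Rs n s ∧ (s.map fun r => (r - 1 / 2).re).sum = 0 ∧
    (s.map fun r => Complex.normSq (r - 1 / 2)).sum ≤ 9 / 2 * s.card := by
  choose v hv using fun r : ℂ => IsAlgClosed.exists_pow_nat_eq (2 * r + 1 / 4) two_pos
  induction n with
  | zero => exact ⟨_, .zero, by norm_num, by norm_num [Complex.normSq_apply]⟩
  | succ n ih =>
    obtain ⟨s, h, a, b⟩ := ih
    refine ⟨_, h.succ (w := fun r => 1 / 2 + v r) fun r => by linear_combination hv r, ?_, ?_⟩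
    · rw [Multiset.map_add, Multiset.sum_add, Multiset.map_map, Multiset.map_map, ← Multiset.sum_map_add]
      exact Multiset.sum_eq_zero (by simp; intros; ring)
    rw [Multiset.map_add, Multiset.sum_add, Multiset.map_map, Multiset.map_map, ← Multiset.sum_map_add]
    refine (Multiset.sum_map_le_sum_map _ (fun r => 8 / 9 * Complex.normSq (r - 1 / 2) +
      10 / 9 * (r - 1 / 2).re + 5) fun r _ => ?_).trans ?_
    · have e : Complex.normSq (v r) ^ 2 = Complex.normSq (2 * r + 1 / 4) := by rw [← hv, map_pow]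
      simp only [Function.comp, add_sub_cancel_left, show 1 - (1 / 2 + v r) - 1 / 2 = -v r by ring,
        Complex.normSq_neg]
      generalize Complex.normSq (v r) = t at e
      simp [Complex.normSq_apply] at e ⊢
      nlinarith [sq_nonneg (t - 9 / 2)]
    simp only [Multiset.sum_map_add, Multiset.sum_map_mul_left, a]
    simp
    linarith

lemma mahler (n : ℕ) : ((P n).map (Int.castRingHom ℂ)).mahlerMeasure ≤ 15 ^ 2 ^ (n + 1) := by
  obtain ⟨s, h, a, b⟩ := roots_c n
  rw [h.P, prod_mahlerMeasure_eq_mahlerMeasure_prod, Multiset.map_map, ← h.1]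
  refine (Multiset.prod_map_le_prod_map₀ _ (fun r => 15 * Real.exp ((32 * Complex.normSq (r - 1 / 2) -
    8 * (r - 1 / 2).re - 155) / 450)) (fun _ _ => mahlerMeasure_nonneg _) fun r _ => ?_).trans ?_
  · refine (mahlerMeasure_le_sqrt_sum_sq_norm_coeff _).trans (Real.sqrt_le_iff.mpr ⟨by positivity, ?_⟩)
    rw [show (X ^ 2 - X) ^ 2 + 2 * (X ^ 2 - X) + 8 - C r * (4 * (X ^ 2 - X)) = X ^ 4 + C (-2) * X ^ 3 +
      C (3 - 4 * r) * X ^ 2 + C (4 * r - 2) * X + C 8 by simp [C_ofNat]; ring]
    refine (Finset.sum_le_sum_of_subset_of_nonneg (t := Finset.range 5) (supp_subset_range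
      (Nat.lt_succ_of_le (by compute_degree))) fun _ _ _ => by positivity).trans ?_
    rw [mul_pow, ← Real.exp_nat_mul]
    refine le_trans ?_ (mul_le_mul_of_nonneg_left (Real.add_one_le_exp _) (by positivity))
    simp [Finset.sum_range_succ, coeff_X, coeff_C, -map_sub, -map_neg, Complex.sq_norm,
      Complex.normSq_apply]
    nlinarith
  rw [Multiset.prod_map_mul, Multiset.map_const', Multiset.prod_replicate, ← Function.comp_def Real.exp,
    ← Multiset.map_map, ← Real.exp_multiset_sum]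
  refine mul_le_of_le_one_right (by positivity) (Real.exp_le_one_iff.mpr ?_)
  simp only [Multiset.sum_map_div, Multiset.sum_map_sub, Multiset.sum_map_mul_left, a]
  simp
  linarith [Nat.cast_nonneg (α := ℝ) s.card]

lemma factor {c : ℝ} (hc : 0 < c) (f : ℚ[X]) : f.Monic → 0 < f.natDegree →
    (f.map (algebraMap ℚ ℂ)).mahlerMeasure ≤ c ^ f.natDegree → ∃ g : ℚ[X], g.Monic ∧ Irreducible g ∧
      g ∣ f ∧ (g.map (algebraMap ℚ ℂ)).mahlerMeasure ≤ c ^ g.natDegree := by
  induction hn : f.natDegree using Nat.strong_induction_on generalizing f with | _ n ih =>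
  intro hm h0 h
  obtain ⟨g, g1, g2, k, rfl⟩ := exists_monic_irreducible_factor f (not_isUnit_of_natDegree_pos _ (hn ▸ h0))
  by_cases e : (g.map (algebraMap ℚ ℂ)).mahlerMeasure ≤ c ^ g.natDegree
  · exact ⟨g, g1, g2, dvd_mul_right _ _, e⟩
  have k1 := g1.of_mul_monic_left hm
  rw [g1.natDegree_mul k1] at hn
  have := g2.natDegree_pos
  rw [Polynomial.map_mul, mahlerMeasure_mul, ← hn, pow_add] at h
  have l : (k.map (algebraMap ℚ ℂ)).mahlerMeasure < c ^ k.natDegree := not_le.mp fun l =>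
    (mul_lt_mul (not_le.mp e) l (by positivity) (mahlerMeasure_nonneg _)).not_ge h
  obtain ⟨r, a, b, d, e⟩ := ih _ (by omega) k rfl k1 (Nat.pos_of_ne_zero fun z => by
    rw [k1.natDegree_eq_zero] at z; simp [z] at l) l.le
  exact ⟨r, a, b, d.mul_left _, e⟩

lemma level {K : Type} [Field K] [CharZero K] [IsAlgClosed K] (n : ℕ) : ∃ s : Multiset K, Rs n s ∧
    ∀ r ∈ s, (fun u => (u ^ 2 - u) / 2)^[n + 1] r = 1 := by
  choose v hv using fun r : K => IsAlgClosed.exists_pow_nat_eq (2 * r + 1 / 4) two_pos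
  induction n with
  | zero => exact ⟨_, .zero, by norm_num⟩
  | succ n ih =>
    obtain ⟨s, h, a⟩ := ih
    refine ⟨_, h.succ (w := fun r => 1 / 2 + v r) fun r => by linear_combination hv r, fun r hr => ?_⟩
    simp only [Multiset.mem_add, Multiset.mem_map] at hr
    rw [Function.iterate_succ_apply]
    rcases hr with ⟨u, h, rfl⟩ | ⟨u, h, rfl⟩ <;> convert a u h <;> linear_combination hv u / 2

lemma P_monic (n : ℕ) : (P n).Monic ∧ (P n).natDegree = 4 * 2 ^ (n + 1) := by
  obtain ⟨s, h, -⟩ := level (K := ℂ) n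
  have i := (Int.castRingHom ℂ).injective_int
  have m : ∀ r : ℂ, ((X ^ 2 - X) ^ 2 + 2 * (X ^ 2 - X) + 8 - C r * (4 * (X ^ 2 - X))).IsMonicOfDegree 4 :=
    fun r => by
      rw [show (X ^ 2 - X) ^ 2 + 2 * (X ^ 2 - X) + 8 - C r * (4 * (X ^ 2 - X)) = X ^ 4 + C (-2) * X ^ 3 +
        C (3 - 4 * r) * X ^ 2 + C (4 * r - 2) * X + C 8 by simp [C_ofNat]; ring]
      exact ⟨by compute_degree!, by monicity!⟩
  rw [← natDegree_map_eq_of_injective i, i.monic_map_iff, h.P, natDegree_multiset_prod_of_monic _ (by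
    simpa using fun r _ => (m r).monic), Multiset.map_map]
  exact ⟨monic_multiset_prod_of_monic _ _ fun r _ => (m r).monic, by
    simp only [Function.comp, (m _).natDegree_eq]; simp [h.1, mul_comm]⟩

theorem main {K : Type} [Field K] [CharZero K] [IsAlgClosed K] : {α : K | IsIntegral ℤ α ∧
    ((minpoly ℚ α).map (algebraMap ℚ ℚ_[2])).roots.card = (minpoly ℚ α).natDegree ∧
      Real.log ((minpoly ℚ α).map (algebraMap ℚ ℂ)).mahlerMeasure / (minpoly ℚ α).natDegree ≤
        Real.log 15 / 4}.Infinite := by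
  have key : ∀ n, ∃ α : K, aeval α (P n) = 0 ∧ ((minpoly ℚ α).map (algebraMap ℚ ℚ_[2])).roots.card =
      (minpoly ℚ α).natDegree ∧ Real.log ((minpoly ℚ α).map (algebraMap ℚ ℂ)).mahlerMeasure /
        (minpoly ℚ α).natDegree ≤ Real.log 15 / 4 := fun n => by
    obtain ⟨m, d⟩ := P_monic n
    obtain ⟨g, a, b, c, e⟩ := factor (Real.exp_pos (Real.log 15 / 4)) _ (m.map (algebraMap ℤ ℚ))
      (by rw [m.natDegree_map, d]; positivity) (by
        rw [m.natDegree_map, d, pow_mul, ← Real.exp_nat_mul, map_map, Nat.cast_ofNat,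
          mul_div_cancel₀ _ four_ne_zero, Real.exp_log (by positivity)]
        convert mahler n using 3; ext; simp)
    obtain ⟨α, h⟩ := IsAlgClosed.exists_aeval_eq_zero K g (degree_pos_of_irreducible b).ne'
    refine ⟨α, by rw [← aeval_map_algebraMap ℚ]; exact aeval_eq_zero_of_dvd_aeval_eq_zero c h, ?_⟩
    rw [← minpoly.eq_of_irreducible_of_monic b h a]
    refine ⟨?_, ?_⟩
    · rw [← natDegree_map (algebraMap ℚ ℚ_[2])]
      refine (Splits.natDegree_eq_card_roots (.of_dvd ?_ ((m.map _).map _).ne_zero (map_dvd _ c))).symm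
      have := (splits2 n).map (algebraMap ℤ_[2] ℚ_[2])
      rwa [map_map, RingHom.ext_int (RingHom.comp _ _) ((algebraMap ℚ ℚ_[2]).comp (algebraMap ℤ ℚ)),
        ← map_map] at this
    rw [div_le_iff₀' (by simpa using b.natDegree_pos),
      Real.log_le_iff_le_exp (mahlerMeasure_pos_of_ne_zero (a.map _).ne_zero), Real.exp_nat_mul]
    exact e
  choose α h0 h1 using key
  have lv : ∀ n, (fun u => (u ^ 2 - u) / 2)^[n + 1]
      (((α n ^ 2 - α n) ^ 2 + 2 * (α n ^ 2 - α n) + 8) / (4 * (α n ^ 2 - α n))) = 1 := fun n => by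
    obtain ⟨s, h, a⟩ := level (K := K) n
    have := h0 n
    rw [aeval_def, ← eval_map, show algebraMap ℤ K = Int.castRingHom K from rfl, h.P, eval_multiset_prod,
      Multiset.map_map, Multiset.prod_eq_zero_iff, Multiset.mem_map] at this
    obtain ⟨r, b, c⟩ := this
    simp only [Function.comp, eval_sub, eval_add, eval_mul, eval_pow, eval_X, eval_ofNat, eval_C] at c
    convert a r b
    rw [div_eq_iff fun z => by grind]
    linear_combination c
  have lt : ∀ {m n}, m < n → α m ≠ α n := fun {m n} l e => by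
    obtain ⟨k, rfl⟩ := Nat.exists_eq_add_of_lt l
    have := lv (m + k + 1)
    rw [← e, show m + k + 1 + 1 = k + 1 + (m + 1) by omega, Function.iterate_add_apply, lv,
      Function.iterate_succ_apply, Function.iterate_fixed (by simp)] at this
    simp at this
  exact Set.infinite_of_injective_forall_mem (fun m n e => by_contra fun c =>
    (lt_or_gt_of_ne c).elim (lt · e) (lt · e.symm)) fun n =>
    ⟨⟨_, (P_monic n).1, h0 n⟩, h1 n⟩

end Pool.Agent.H46.Tp
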